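import Pool.Agent.X295.PartNF

/-!
# MP_eeb1a4_ag: the Zilber-Pink conjecture for one hundred percent of the members over a number field of
families of curves in the mixed Shimura variety `Y(1)^n × G_m^k` whose modular coordinates never
degenerate all together

`Y(1)^n × G_m^k` is the set of all `x ∈ ℂ^(n+k)` whose last `k` coordinates are not zero, where `Y(1)` is
identified with `ℂ` by the elliptic modular function `jj = j = E₄³ / Δ`. It is the mixed period space
of the variations of mixed Hodge structures `⊕ H¹(E_i) ⊕ M_j`, `E_i` elliptic curves and `M_j` an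
extension of `ℤ(0)` by `ℤ(1)`. Its special subvarieties are the products `Z × T` (`special`) of special
subvarieties of `Y(1)^n` and torsion cosets; the constant coordinates of `Z` are singular moduli or,
more generally, integral over the ring generated by a finite set `Γ` of algebraic numbers.

Let `C_t ⊂ Y(1)^n × G_m^k` be a family of curves with the parameters `t = (t_1, …, t_q)` (any family of
sets such that for `δ (t) ≠ 0`, where `δ` is a fixed polynomial `≠ 0` with algebraic coefficients, no
value of a coordinate is taken infinitely often on `C_t`). Let `I_1, …, I_P` be proper subsets of the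
set of the `n` modular coordinates. For each `s` let `h_{s1}, …, h_{sK}` be irreducible polynomials in
`t` over the algebraic numbers, `K ≥ 3`, `K ≥ k (k - 1)`, `h_{si}` not dividing a conjugate (over `ℚ`)
of `h_{sj}` for `i ≠ j`, and suppose that along `h_{si} = 0` the modular coordinates in `I_s` tend to
the cusp and the torus coordinates are scaled (`DegeneratesOn`): for all `t` with `δ (t) ≠ 0` the
projection of `C_t` to the coordinates in `I_s` and the torus is contained in the set of the
`(λ_j (t) y_j, ν_l (t) y_l)`, `y ∈ V_t` (`scaledMemberM`), where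
`λ_j = a_j / (g_j ∏_i h_{si}^(w_ij))` has poles of arbitrary orders `w_ij > 0` along all the
`h_{si} = 0`, `ν_l = (A_l / B_l) ∏_i h_{si}^(c_il)` has the order `c_il` along `h_{si} = 0`, the
`c_il` are `Independent` (any `k - 1` of the rows `c_i` without a column span `ℚ^(k-1)`), and
`V_t ⊂ (P¹)^(I_s) × (P¹)^k` is a family given by forms whose generic member over each `h_{si} = 0` is a
geometrically integral curve in general position (`GoodAlong`).

**Theorem.** Suppose that each set of at most four modular coordinates is contained in one of the proper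
subsets `I_s`. Let `ω_0 = 1, ω_1, …, ω_r` be algebraic numbers, for example an integral basis of a number
field `E`. For each `ε > 0`, for all but `O(H^(q (r + 1) - 1 + ε))` of the integral `u = (u_{j b})` with
`|u_{j b}| ≤ H` the curve `C_t` with the parameters `t_j = ∑_b ω_b u_{j b}` (for almost all `t` in
`O_E^q`) has only finitely many points on special subvarieties of codimension at least two, and each
proper special subvariety contains only finitely many of its points.

**New.** Our `MP_defd1c_ag/PartialDegeneration` has polynomials `h_{si}` with integral coefficients and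
integral parameters; in the starting files and in our `MP_a325a5_ag/CurvesOverNumberFields` all modular
coordinates tend to the cusp along each of the divisors. Our `MP_eeb1a4_ag/MixedPartialDegeneration`
(subvarieties of any dimension) needs orders of the modular coordinates which are independent modulo
squares and torus orders all of whose square minors are not zero; here the orders of the modular
coordinates are arbitrary.
-/

set_option autoImplicit false

namespace Pool.Agent.Results.MP_eeb1a4_ag.CurvesPartialNumberFields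

open Pool.Agent.X295 Pool.Agent.X295.NF

/-- The modular coordinates `x_{σ 0}, x_{σ 1}, …` of the family `C_t` tend to the cusp along the
divisors `h_i = 0`, and the generic degenerate curves (after scaling) are in general position. -/
def DegeneratesOn {n m k q K : ℕ} (δ : Parameters q) (X : (Fin q → ℂ) → Set (Fin (n + k) → ℂ))
    (h : Fin K → Parameters q) (σ : Fin m → Fin n) : Prop :=
  ∃ (κ : Type) (_ : Finite κ) (V : κ → MvPolynomial (Fin (m + k) × Bool) (Parameters q))
    (S : Scaling m k q K), (∀ i, GoodAlong (h i) V) ∧ S.Exact h ∧ Independent S.c ∧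
    ∀ t : Fin q → ℂ, valueAt t δ ≠ 0 → ∀ x ∈ X t,
      projM σ x ∈ scaledMemberM V t (S.lam h t) (S.nu h t)

/-- The Zilber-Pink conjecture for almost all members over a number field of families of curves in
`Y(1)^n × G_m^k` along whose divisors `h_{si} = 0` only the modular coordinates in proper subsets `I_s`
tend to the cusp, where each set of at most four modular coordinates is in one of the `I_s`. -/
theorem result {n k q r K P : ℕ} (hk : 0 < k) (hK3 : 3 ≤ K) (hK : k * (k - 1) ≤ K)
    (ω : Fin (r + 1) → algebraicClosure ℚ ℂ) (hω0 : ω 0 = 1)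
    (δ : Parameters q) (hδ : δ ≠ 0) (X : (Fin q → ℂ) → Set (Fin (n + k) → ℂ))
    (hX : ∀ t : Fin q → ℂ, valueAt t δ ≠ 0 → ∀ (i : Fin (n + k)) (c : ℂ),
      {x | x ∈ X t ∧ x i = c}.Finite)
    (h : Fin P → Fin K → Parameters q) (hirr : ∀ s i, Irreducible (h s i))
    (hne : ∀ s i j, i ≠ j → ∀ τ : algebraicClosure ℚ ℂ ≃ₐ[ℚ] algebraicClosure ℚ ℂ,
      ¬ h s i ∣ MvPolynomial.map (τ : algebraicClosure ℚ ℂ →+* algebraicClosure ℚ ℂ) (h s j))
    (m : Fin P → ℕ) (_hm : ∀ s, m s < n) (σ : ∀ s, Fin (m s) → Fin n)
    (hσ : ∀ s, Function.Injective (σ s))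
    (hcover : ∀ J : Finset (Fin n), J.card ≤ 4 → ∃ s, ∀ i ∈ J, ∃ t, σ s t = i)
    (hdeg : ∀ s, DegeneratesOn δ X (h s) (σ s))
    (Γ : Set ℂ) (hΓ : Γ.Finite) (hΓa : ∀ γ ∈ Γ, IsAlgebraic ℚ γ) (ε : ℝ) (hε : 0 < ε) :
    ∃ C : ℝ, ∀ H : ℕ, 1 ≤ H →
      ({u : Fin q → Fin (r + 1) → ℤ | (∀ j b, |u j b| ≤ H) ∧
        ¬ ZilberPinkM Γ (X (fun j => ∑ b, (ω b : ℂ) * (u j b : ℂ)))}.ncard : ℝ) ≤
          C * (H : ℝ) ^ ((q : ℝ) * (r + 1) - 1 + ε) := by
  choose κ hκ V S hV hS hc hsub using hdeg
  refine count_cover {u | ¬ ZilberPinkM Γ (X (fun j => ∑ b, (ω b : ℂ) * (u j b : ℂ)))}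
    {u | valueAt (fun j => ∑ b, (ω b : ℂ) * (u j b : ℂ)) δ = 0}
    (fun s => {u | ¬ ZilberPinkM Γ (scaledMemberM (V s)
        (fun j => ∑ b, (ω b : ℂ) * (u j b : ℂ))
        ((S s).lam (h s) (fun j => ∑ b, (ω b : ℂ) * (u j b : ℂ)))
        ((S s).nu (h s) (fun j => ∑ b, (ω b : ℂ) * (u j b : ℂ))))}) ?_ _
    (zerosNF ω (by rw [hω0]; exact one_ne_zero) hδ hε)
    (fun s => mixNF hK3 hK ω hω0 (h s) (hirr s) (hne s) (V s) (hV s) (S s) (hS s) (hc s)
      Γ hΓ hΓa ε hε)
  intro u hu
  by_cases h0 : valueAt (fun j => ∑ b, (ω b : ℂ) * (u j b : ℂ)) δ = 0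
  · exact Or.inl h0
  · right
    by_contra hcon
    apply hu
    refine zpM_of_proj hk _ (hX _ h0) m σ hσ hcover (fun s => scaledMemberM (V s)
        (fun j => ∑ b, (ω b : ℂ) * (u j b : ℂ))
        ((S s).lam (h s) (fun j => ∑ b, (ω b : ℂ) * (u j b : ℂ)))
        ((S s).nu (h s) (fun j => ∑ b, (ω b : ℂ) * (u j b : ℂ)))) (fun s => ?_)
      fun s x hx => hsub s _ h0 x hx
    by_contra hs
    exact hcon (Set.mem_iUnion.2 ⟨s, hs⟩)

end Pool.Agent.Results.MP_eeb1a4_ag.CurvesPartialNumberFields
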