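import Pool.Agent.X120.NF.Mhg

/-!
# Normal functions and the Hodge locus of variations of mixed Hodge structure: the points `(b_1^(-t_1), …, b_k^(-t_k))`

Let `V_i`, `1 ≤ i ≤ k`, be variations of Hodge structure of odd weight `w_i = 2 m_i - 1` with `h^{w_i, 0} = 1` (of Calabi-Yau type) over the projective line without finitely many points, which come from geometry over `ℚ`, with a
nondegenerate alternating form, such that the monodromy group is dense in a symplectic group. Let `E_i` be an admissible variation of mixed Hodge structure, an extension of `ℚ(0)^(r_i)` by `V_i(m_i)`, for example the one given by `r_i` algebraic cycles of codimension `m_i` on the total space, which are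
homologically trivial in the fibres (normal functions). The fibre over `x = 0` may be smooth or degenerate: we suppose that near `x = 0` the
period matrix of `V_i` is `L_i(log (1/x)) P_i(x)`, where the entries of `P_i` are polynomials with any complex coefficients in a system of G-functions with rational coefficients which are solutions of a
differential system with a regular singularity with rational exponents at infinity, and the entries of `L_i(u)` are polynomials, and that the vector `(p_1, …, p_(r_i), ω)` of the values `p_j` of the pairings of the `r_i` normal functions with the form of type `(w_i, 0)` and of its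
periods has the same form, where now the functions `1, P_1, …, P_(r_i + n_i)` (the entries of the vector without the logarithms) are linearly independent over `ℂ(x)`. (These are the entries of a column of the period matrix of `E_i`. The condition holds if the normal functions are linearly independent modulo
constants and torsion.) Let `V_0` be any fixed (pure or mixed) rational Hodge structure of dimension `n_0`. We consider the variation of mixed Hodge structure `𝕍 = V_0 ⊕ pr_1^* E_1 ⊕ … ⊕ pr_k^* E_k` on the product of the `k` curves.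

The fibre of `E_i` is `ℚ^(r_i) ⊕ ℚ^(n_i)` with the Hodge structure `V_i(m_i)` on the second summand, and `I^(0,0)` is spanned by the `(e_j, β_j)`, where `β_j ∈ V_i ⊗ ℝ` represents the class of the extension in the intermediate Jacobian; its pairing with the form `ω` of type `(w_i, 0)` is `p_j`. The operator of the
Hodge structure (multiplication by `p` on `I^(p,q)`) is `Ψ_i : (c, v) ↦ (0, (v - c β)(Φ_i - m_i))`, where `Φ_i` is the operator of `V_i`. The Lie algebra of the Mumford-Tate group of the fibre of `𝕍` is a rational Lie algebra of block diagonal matrices whose complexification contains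
`(Φ_0, Ψ_1, …, Ψ_k)`.

**Theorem.** Let `b_i ≥ 2` be integers. There is a constant `K`, which depends only on the G-functions, the ranks, the degrees `e` of the polynomials, the `b_i` and on `n_0`, such that for all `V_0` and all such
`E_i`, for all but `K N^(k-1) log N` of the `N^k` points `x = (b_1^(-t_1), …, b_k^(-t_k))`, `1 ≤ t_i ≤ N` (for `k = 1` for all but `K log N` of the points `b^(-t)`), every rational Lie
algebra whose complexification contains `(Φ_0, Ψ_1, …, Ψ_k)` contains the whole unipotent part and the symplectic Lie algebras, that is all `(0, (ψ_1, X_1), …, (ψ_k, X_k))`, where `ψ_i` is any rational homomorphism from `ℚ^(r_i)` to `V_i`, `X_i ∈ 𝔰𝔭(V_i)`, and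
`(ψ_i, X_i)` is `(c, v) ↦ (0, c ψ_i + v X_i)`.

So the mixed Mumford-Tate group of the fibre contains the group `∏ Hom(ℚ(0)^(r_i), V_i) ⋊ Sp(V_i)`, the fibre is Hodge generic, and the Hodge locus of the variation of mixed Hodge structure `𝕍` contains at most `K N^(k-1) log N` of these points. If the weights are at least three all special subvarieties of the curves are atypical for `E_i`,
and by the conjecture there are only finitely many points in the Hodge locus of `E_i`. For the pure variations `V_i` this is `MP_0704bf_ag.BigMonodromyAtPowers`, and the hypergeometric families with fixed mixed `V_0`: `MP_eeb1a4_ag.RelativeHodgeGenericity`; the new part is the variation of the extension. (For abelian schemes, `w_i = 1`, the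
sections become dependent at finitely many of the points `b^(-t)` only, by the specialisation theorem of Silverman; for `w_i ≥ 3` there is no theory of heights for this. For very general points the result is due to André.)

Proof. For all but few points the projection of the Lie algebra to `𝔤𝔩(V_0) × ∏ 𝔤𝔩(V_i)` contains, up to scalars, the symplectic Lie algebras (`Pool.Agent.X120.BM`), and the values `p_j` and the periods have no linear relation with rational coefficients (`Pool.Agent.X120.NF`). The
unipotent part is a module over the symplectic Lie algebras; if it is not everything, there is a nonzero vector `c` in some `ℚ^(r_i)` such that the Lie algebra is, modulo the kernel of `c`, the stabiliser of a rational lift of `c`, which must be in `I^(0,0)` up to a vector of type `(m_i, m_i - 1)`,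
and this gives a linear relation.
-/

set_option autoImplicit false

open Pool.Agent.X120.BM Pool.Agent.X120.NF

namespace Pool.Agent.Results.MP_eeb1a4_ag.MixedHodgeGenericAtPowers

/-- The last `n_i` functions of `Q_i` are the periods of the form of type `(w_i, 0)`. -/
def Compatible {k e : ℕ} {G : Fin k → GSystem} {n r : Fin k → ℕ} (F : ∀ i, Periods (G i) (n i) e)
    (Q : ∀ i, Functions (G i) (r i + n i) e) (b : Fin k → ℕ) : Prop :=
  ∀ i t, periods ((Q i).val (b i) t) = (F i).vec (b i) t

/-- The operator `(c, v) ↦ (0, (v - c β)(Φ - m))` of the extension: it is zero on the `(c, c β)`, and it is the multiplication by `p - m` on the `(0, v)`, `v` of type `(p, q)` for `Φ`. -/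
noncomputable def mixedOperator {r n : ℕ} (m : ℕ) (β : Matrix (Fin r) (Fin n) ℂ) (Φ : Matrix (Fin n) (Fin n) ℂ) :
    Matrix (Fin (r + n)) (Fin (r + n)) ℂ :=
  block (-(β * (Φ - (m : ℂ) • 1))) (Φ - (m : ℂ) • 1)

/-- The pairings of the `β_j` with the form of type `(w_i, 0)` of the fibre over `x_i = b_i^(-t_i)` are the values of the first functions of `Q_i`. -/
def IsClass {k e : ℕ} {G : Fin k → GSystem} {n r : Fin k → ℕ} (F : ∀ i, Periods (G i) (n i) e)
    (Q : ∀ i, Functions (G i) (r i + n i) e) (b t : Fin k → ℕ) (A : ∀ i, Matrix (Fin (n i)) (Fin (n i)) ℚ)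
    (β : ∀ i, Matrix (Fin (r i)) (Fin (n i)) ℂ) : Prop :=
  ∀ i j, dotProduct (β i j) (Matrix.mulVec (toC (A i)) ((F i).vec (b i) (t i))) = (Q i).val (b i) (t i) (Fin.castAdd (n i) j)

/-- `V` contains the unipotent part and the symplectic Lie algebras. -/
def ContainsAll {k n₀ : ℕ} {n r : Fin k → ℕ} (A : ∀ i, Matrix (Fin (n i)) (Fin (n i)) ℚ)
    (V : Submodule ℚ (Tup n₀ (fun i => r i + n i) ℚ)) : Prop :=
  ∀ (ψ : ∀ i, Matrix (Fin (r i)) (Fin (n i)) ℚ) (X : ∀ i, Matrix (Fin (n i)) (Fin (n i)) ℚ),
    (∀ i, X i * A i + A i * (X i).transpose = 0) → ((0, fun i => block (ψ i) (X i)) : Tup n₀ (fun i => r i + n i) ℚ) ∈ V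

/-- For all Hodge structures `H_i` with forms `A_i` on the fibres over `x_i = b_i^(-t_i)` (with the part of type `(w_i, 0)` given by the period vector), all classes `β` with the given pairings, every rational Lie algebra whose
complexification contains the operator of `V_0 ⊕ E_1 ⊕ … ⊕ E_k` contains the unipotent part and the symplectic Lie algebras. -/
def MixedGeneric {n₀ k e : ℕ} {G : Fin k → GSystem} {n r : Fin k → ℕ} (Φ₀ : Matrix (Fin n₀) (Fin n₀) ℂ)
    (F : ∀ i, Periods (G i) (n i) e) (Q : ∀ i, Functions (G i) (r i + n i) e) (w m b t : Fin k → ℕ) : Prop :=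
  ∀ (A : ∀ i, Matrix (Fin (n i)) (Fin (n i)) ℚ) (H : ∀ i, ℕ → Submodule ℂ (Fin (n i) → ℂ)), IsFibre F w b t A H →
    ∀ Φ : ∀ i, Matrix (Fin (n i)) (Fin (n i)) ℂ, (∀ i, IsHodgeOperator (w i) (H i) (Φ i)) →
    ∀ β : ∀ i, Matrix (Fin (r i)) (Fin (n i)) ℂ, IsClass F Q b t A β →
    ∀ V : Submodule ℚ (Tup n₀ (fun i => r i + n i) ℚ), IsLie V →
      ((Φ₀, fun i => mixedOperator (m i) (β i) (Φ i)) : Tup n₀ (fun i => r i + n i) ℂ) ∈ extend ℂ V → ContainsAll A V

/-- the number of points with one exceptional coordinate -/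
theorem card_coord {k : ℕ} (i : Fin k) (N : ℕ) (E : Finset ℕ) :
    {t : Fin k → ℕ | (∀ j, 1 ≤ t j ∧ t j ≤ N) ∧ t i ∈ E}.ncard * N ≤ E.card * N ^ k := by
  classical
  have h1 : {t : Fin k → ℕ | (∀ j, 1 ≤ t j ∧ t j ≤ N) ∧ t i ∈ E} ⊆
      (Fintype.piFinset (Function.update (fun _ => Finset.Icc 1 N) i E) : Finset (Fin k → ℕ)) := by
    rintro t ⟨ht, hti⟩
    rw [Finset.mem_coe, Fintype.mem_piFinset]
    intro j
    by_cases hj : j = i
    · subst hj
      rw [Function.update_self]
      exact hti
    · rw [Function.update_of_ne hj]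
      exact Finset.mem_Icc.2 (ht j)
  have h2 := Set.ncard_le_ncard h1 (Finset.finite_toSet _)
  rw [Set.ncard_coe_finset, Fintype.card_piFinset] at h2
  have h3 : ∏ j, (Function.update (fun _ => Finset.Icc 1 N) i E j).card = E.card * N ^ (k - 1) := by
    rw [← Finset.mul_prod_erase _ _ (Finset.mem_univ i), Function.update_self]
    congr 1
    rw [Finset.prod_congr rfl (fun j hj => by
      rw [Function.update_of_ne (Finset.ne_of_mem_erase hj)]), Finset.prod_const, Finset.card_erase_of_mem (Finset.mem_univ i),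
      Finset.card_univ, Fintype.card_fin, Nat.card_Icc, Nat.add_sub_cancel]
  rw [h3] at h2
  have hk : k = (k - 1) + 1 := by
    have := i.2
    omega
  calc _ ≤ E.card * N ^ (k - 1) * N := Nat.mul_le_mul_right N h2
    _ = E.card * N ^ k := by
      conv_rhs => rw [hk]
      rw [pow_succ, mul_assoc]

/-- **The theorem.** -/
theorem result (n₀ k e : ℕ) (G : Fin k → GSystem) (n r : Fin k → ℕ) (b : Fin k → ℕ) (hb : ∀ i, 2 ≤ b i) :
    ∃ K : ℝ, 0 ≤ K ∧ ∀ Φ₀ : Matrix (Fin n₀) (Fin n₀) ℂ, IsSplitOperator Φ₀ →
      ∀ (F : ∀ i, Periods (G i) (n i) e) (Q : ∀ i, Functions (G i) (r i + n i) e), Compatible F Q b →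
      ∀ w m : Fin k → ℕ, (∀ i, w i + 1 = 2 * m i) → ∀ N : ℕ, 2 ≤ N →
      (({t : Fin k → ℕ | (∀ i, 1 ≤ t i ∧ t i ≤ N) ∧ ¬ MixedGeneric Φ₀ F Q w m b t}.ncard : ℕ) : ℝ) * N ≤
        K * (N : ℝ) ^ k * Real.log N := by
  classical
  obtain ⟨K, hK, hcount⟩ := count_rel n₀ e G n b hb
  choose C hC hlin using fun i => lin_count (G i) (r i + n i) e 1 (b i) (hb i)
  refine ⟨K + ∑ i, C i, add_nonneg hK (Finset.sum_nonneg fun i _ => hC i), ?_⟩
  intro Φ₀ hΦ₀ F Q hFQ w m hwm N hN
  set V₀ : Submodule ℚ ℂ := Submodule.span ℚ {1} with hV₀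
  have hVf : Module.Finite ℚ V₀ := Module.Finite.span_singleton ℚ 1
  have hVr : Module.finrank ℚ V₀ ≤ 1 := (finrank_span_le_card ({1} : Set ℂ)).trans (by simp)
  -- the exceptional sets
  set box : Set (Fin k → ℕ) := {t | ∀ i, 1 ≤ t i ∧ t i ≤ N} with hbox
  have hboxf : box.Finite := by
    refine (Finset.finite_toSet (Fintype.piFinset fun _ : Fin k => Finset.Icc 1 N)).subset ?_
    intro t ht
    rw [Finset.mem_coe, Fintype.mem_piFinset]
    exact fun i => Finset.mem_Icc.2 (ht i)
  set S : ∀ i, Set ℕ := fun i => {s : ℕ | 1 ≤ s ∧ s ≤ N ∧ ∃ q : Fin (r i + n i) → ℂ, q ≠ 0 ∧ (∀ j, q j ∈ V₀) ∧ ∑ j, q j * (Q i).val (b i) s j = 0}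
    with hS
  have hSf : ∀ i, (S i).Finite := fun i => (Set.finite_Iic N).subset fun s hs => hs.2.1
  set T₀ : Set (Fin k → ℕ) := {t | (∀ i, 1 ≤ t i ∧ t i ≤ N) ∧ ¬ ∀ (A : ∀ i, Matrix (Fin (n i)) (Fin (n i)) ℚ)
    (H : ∀ i, ℕ → Submodule ℂ (Fin (n i) → ℂ)), IsFibre F w b t A H → RelativelyGeneric Φ₀ w A H} with hT₀
  have hT₀f : T₀.Finite := hboxf.subset fun t ht => ht.1
  set U : Fin k → Set (Fin k → ℕ) := fun i => {t | (∀ j, 1 ≤ t j ∧ t j ≤ N) ∧ t i ∈ (hSf i).toFinset} with hU
  have hUf : ∀ i, (U i).Finite := fun i => hboxf.subset fun t ht => ht.1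
  have hsub : {t : Fin k → ℕ | (∀ i, 1 ≤ t i ∧ t i ≤ N) ∧ ¬ MixedGeneric Φ₀ F Q w m b t} ⊆
      ((hT₀f.toFinset ∪ Finset.univ.biUnion fun i => (hUf i).toFinset : Finset (Fin k → ℕ)) : Set (Fin k → ℕ)) := by
    rintro t ⟨ht, hnot⟩
    rw [Finset.mem_coe, Finset.mem_union, Finset.mem_biUnion]
    by_contra hno
    push Not at hno
    obtain ⟨h1, h2⟩ := hno
    rw [Set.Finite.mem_toFinset] at h1
    apply hnot
    intro A H hF Φ hop β hβ V hV hΦ ψ X hX
    have hRG : RelativelyGeneric Φ₀ w A H := by
      by_contra h3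
      exact h1 ⟨ht, fun h4 => h3 (h4 A H hF)⟩
    refine mixed_generic (w := w) (m := m) (A := A) (H := H) (Φ := Φ) (β := β) (ω := fun i => (F i).vec (b i) (t i)) hwm hV hΦ hRG
      (fun i => (hF i).2.1) hop (fun i => ?_) (fun i c d hcd => ?_) ψ X hX
    · rw [(hF i).2.2.2]
      exact Submodule.mem_span_singleton_self _
    · by_contra hc0
      have h3 := h2 i (Finset.mem_univ i)
      rw [Set.Finite.mem_toFinset] at h3
      refine h3 ⟨ht, ?_⟩
      rw [Set.Finite.mem_toFinset]
      obtain ⟨q, hql, hqr⟩ : ∃ q : Fin (r i + n i) → ℂ, (∀ j, q (Fin.castAdd (n i) j) = ((c j : ℚ) : ℂ)) ∧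
          ∀ a, q (Fin.natAdd (r i) a) = ((d a : ℚ) : ℂ) :=
        ⟨fun l => Fin.addCases (fun j => ((c j : ℚ) : ℂ)) (fun a => ((d a : ℚ) : ℂ)) l, fun j => Fin.addCases_left _, fun a => Fin.addCases_right _⟩
      refine ⟨(ht i).1, (ht i).2, q, ?_, ?_, ?_⟩
      · intro h0
        apply hc0
        funext j
        have h4 := hql j
        rw [h0, Pi.zero_apply] at h4
        exact_mod_cast h4.symm
      · have h1V : (1 : ℂ) ∈ V₀ := Submodule.mem_span_singleton_self 1
        have hq : ∀ q : ℚ, ((q : ℚ) : ℂ) ∈ V₀ := by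
          intro q
          have := V₀.smul_mem q h1V
          rwa [Rat.smul_def, mul_one] at this
        intro j
        refine Fin.addCases (fun j => ?_) (fun a => ?_) j
        · rw [hql]
          exact hq _
        · rw [hqr]
          exact hq _
      · rw [Fin.sum_univ_add]
        simp only [hql, hqr]
        rw [← hcd]
        congr 1
        · refine Finset.sum_congr rfl fun j _ => ?_
          rw [hβ i j]
        · refine Finset.sum_congr rfl fun a _ => ?_
          rw [← hFQ i (t i)]
          rfl
  have hcard := Set.ncard_le_ncard hsub (Finset.finite_toSet _)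
  rw [Set.ncard_coe_finset] at hcard
  have h1 : (hT₀f.toFinset ∪ Finset.univ.biUnion fun i => (hUf i).toFinset).card ≤ T₀.ncard + ∑ i, (U i).ncard := by
    refine (Finset.card_union_le _ _).trans ?_
    rw [Set.ncard_eq_toFinset_card _ hT₀f]
    refine Nat.add_le_add_left ?_ _
    refine Finset.card_biUnion_le.trans (Finset.sum_le_sum fun i _ => ?_)
    rw [Set.ncard_eq_toFinset_card _ (hUf i)]
  have h2 : ((T₀.ncard : ℕ) : ℝ) * N ≤ K * (N : ℝ) ^ k * Real.log N :=
    hcount Φ₀ hΦ₀ F w N hN T₀ fun t ht => ht
  have hN1 : (1 : ℝ) ≤ N := by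
    have : 1 ≤ N := by omega
    exact_mod_cast this
  have h3 : ∀ i, (((U i).ncard : ℕ) : ℝ) * N ≤ C i * Real.log N * (N : ℝ) ^ k := by
    intro i
    have h4 := card_coord i N (hSf i).toFinset
    have h5 : (((U i).ncard : ℕ) : ℝ) * N ≤ ((hSf i).toFinset.card : ℝ) * (N : ℝ) ^ k := by exact_mod_cast h4
    refine h5.trans (mul_le_mul_of_nonneg_right ?_ (by positivity))
    have h6 := hlin i (Q i) V₀ hVr N hN
    rw [Set.ncard_eq_toFinset_card _ (hSf i)] at h6
    exact h6
  calc (({t : Fin k → ℕ | (∀ i, 1 ≤ t i ∧ t i ≤ N) ∧ ¬ MixedGeneric Φ₀ F Q w m b t}.ncard : ℕ) : ℝ) * N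
      ≤ ((T₀.ncard + ∑ i, (U i).ncard : ℕ) : ℝ) * N := by
        refine mul_le_mul_of_nonneg_right ?_ (by positivity)
        exact_mod_cast hcard.trans h1
    _ = (T₀.ncard : ℝ) * N + ∑ i, ((U i).ncard : ℝ) * N := by
        push_cast
        rw [add_mul, Finset.sum_mul]
    _ ≤ K * (N : ℝ) ^ k * Real.log N + ∑ i, C i * Real.log N * (N : ℝ) ^ k :=
        add_le_add h2 (Finset.sum_le_sum fun i _ => h3 i)
    _ = (K + ∑ i, C i) * (N : ℝ) ^ k * Real.log N := by
        rw [← Finset.sum_mul, ← Finset.sum_mul]
        ring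

end Pool.Agent.Results.MP_eeb1a4_ag.MixedHodgeGenericAtPowers
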