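import Pool.Agent.X295.PartF

/-!
# MP_eeb1a4_ag: unlikely intersections for families of subvarieties of the mixed Shimura variety
`Y(1)^n × G_m^k` of any dimension, whose modular coordinates never degenerate all together

`Y(1)^n × G_m^k` is the mixed Shimura variety which is the (mixed) period space of the variations of
mixed Hodge structures `⊕ H¹(E_i) ⊕ M_j`, where `E_i` are elliptic curves and `M_j` is an extension of
`ℤ(0)` by `ℤ(1)` (a Kummer variation, given by an invertible function). `Y(1)` is identified with `ℂ` by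
the elliptic modular function `jj = j = E₄³ / Δ`. Let `K ⊂ ℂ` be any countable field.

**Families of images.** For a subset `I` of `n'` modular coordinates we consider algebraic families `Y_t`
of subsets of `Y(1)^I × G_m^k` with `q` parameters `t = (t_1, …, t_q)`, given by a family `B_t ⊆ P^N` of
projective algebraic sets, defined by forms `G a` with coefficients in `K[t]`, quotients
`f_i = A_i / B_i` of forms of the same degree with coefficients in `K[t]`, functions `s_i` integral over
`K[j]` (`R_i (s_i, j) = 0` with `R_i` monic in the first variable; level one: `s_i = j`) and polynomials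
`c_i ∈ K[t]`:
`Y_t = {x | ∃ y ∈ B_t, ∃ s, R_i (s_i, x_i) = 0, c_i (t) s_i = A_i (y) / B_i (y)` for `i ∈ I`, and
`c_j (t) x_j = A_j (y) / B_j (y) ≠ 0` for the `k` torus coordinates`}` (`scaledImageX`), which
degenerate along `M` hypersurfaces `h_l = 0` of the space of parameters (`DegeneratesAlongK`): `h_l` is
irreducible over `ℂ`, its coefficients are algebraic numbers in `K`, `c_i` vanishes along `h_l = 0`
exactly to the order `e_{l i} > 0`, and at one point `t` of the hypersurface (with coordinates
algebraic over `K`) no point of `B_t` lies on `m + 1` of the divisors of the `f_i`. The orders are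
`Independent`: with `τ = max_{s ≤ m} (k - 1 - s) C(k, s)` (`torusNumber`),
* all square minors of the matrix of the orders of the torus coordinates are different from zero;
* `M ≥ m + 1 + max (1, τ)`, and no product of a nonempty set of the modular orders with a positive
  number `a ≤ T^(2 M n')` is a square; or `M ≥ C(min(m + 2, n'), 2) + τ + 1`, and
  `a e_{l i} e_{l j} e_{l' i} e_{l' j}` is not a square for `l ≠ l'`, `i ≠ j`, `1 ≤ a ≤ T^8`.

**Partial degeneration.** Let `X_t ⊆ Y(1)^n × G_m^k` be any family of sets with the parameters `t`, and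
let `I_1, …, I_P` be proper subsets of the set of the modular coordinates such that for each `s`, for
all `t` with `δ (t) ≠ 0`, the projection of `X_t` to the modular coordinates in `I_s` and to the torus
is contained in the member `Y_t` of a family of images as above (`DegeneratesOn`). Nothing is assumed
about the other modular coordinates near the hypersurfaces along which this family degenerates.

**Theorem.** Suppose that each set of at most `2 (m + 1)` modular coordinates is contained in one of the
proper subsets `I_s`; for example `P = 2 m + 3`, and the `I_s` are the complements of `2 m + 3`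
different coordinates. Let `ω_0 ≠ 0, ω_1, …, ω_r` be algebraic numbers in `K`, for example an integral
basis of a number field. Then for each `ε > 0`, for all but `O(H^(q (r + 1) - 1 + ε))` of the integral
`u = (u_{j b})` with `|u_{j b}| ≤ H` the member `X_t` with the parameters `t_j = ∑_b ω_b u_{j b}` has no
atypical intersection with the special subvarieties `Z × T` of `Y(1)^n × G_m^k`: every irreducible
closed subset of `X_t ∩ (Z × T)` has dimension at most `dim Z + dim T + m - (n + k)`, and the same bound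
holds for the transcendence degrees of the points over `K`. Here the constant coordinates of `Z` can be
special points or integral over the ring generated by any given finite subset `Γ` of `K`, and `T` can be
any coset of an algebraic subgroup by a point whose coordinates are units over this ring (for example
a torsion point).

**New.** In all earlier results for subvarieties of any dimension of `Y(1)^n × G_m^k` (the starting files
on `DivisionGroupParameters`, …, and our `MP_defd1c_ag/MultiParameterFamilies`,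
`MP_a325a5_ag/NumberFieldFamilies`) all modular coordinates tend to cusps together along each of the
degenerate divisors. Here this never happens; for subvarieties of `Y(1)^n` of any dimension there is our
`MP_22337f_ag/PartialDegenerations`, for curves over `ℤ` our `MP_defd1c_ag/PartialDegeneration`. The
proof: an atypical intersection can be seen in at most `2 (m + 1)` modular coordinates and the torus: if
the point `x` of `Z × T` has transcendence degree `s` and `s + codim Z + codim T ≥ m + 1`, one takes
`c ≤ codim Z` and `m + 1 - c - codim T` algebraically independent coordinates of `x`, and `2 c` modular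
coordinates to which `Z` projects with codimension at least `c`, together with any further coordinates.
-/

set_option autoImplicit false

namespace Pool.Agent.Results.MP_eeb1a4_ag.MixedPartialDegeneration

open MvPolynomial Pool.Agent.X295 Pool.Agent.Y152.RP.FamM

/-- The number `max {(k - 1 - s) C(k, s) : 0 ≤ s ≤ m}`. -/
def torusNumber (k m : ℕ) : ℕ := (Finset.range (m + 1)).sup fun s => (k - 1 - s) * k.choose s

/-- The orders `e` along the `M` hypersurfaces are positive and independent. The last
condition says that all square minors of the matrix of the orders of the torus coordinates are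
nonzero: a vector supported on a set `J` of columns and orthogonal to at least `|J|` rows is zero. -/
def Independent {n k M : ℕ} (T m : ℕ) (e : Fin M → Fin n ⊕ Fin k → ℕ) : Prop :=
  (∀ l i, 0 < e l i) ∧
  ((m + 1 + max 1 (torusNumber k m) ≤ M ∧
    ∀ P : Finset (Fin M × Fin n), P.Nonempty → ∀ a, 0 < a → a ≤ T ^ (2 * (M * n)) →
      ¬ IsSquare (a * ∏ p ∈ P, e p.1 (Sum.inl p.2))) ∨
  ((min (m + 2) n).choose 2 + torusNumber k m + 1 ≤ M ∧
    ∀ l l', l ≠ l' → ∀ i j : Fin n, i ≠ j → ∀ a, 0 < a → a ≤ T ^ 8 →
      ¬ IsSquare (a * (e l (Sum.inl i) * e l (Sum.inl j) *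
        (e l' (Sum.inl i) * e l' (Sum.inl j)))))) ∧
  ∀ (s : Finset (Fin M)) (J : Finset (Fin k)) (b : Fin k → ℤ), J.card ≤ s.card →
    (∀ j, j ∉ J → b j = 0) → (∀ l ∈ s, ∑ j, b j * (e l (Sum.inr j) : ℤ) = 0) → b = 0

/-- The projection to the modular coordinates `σ` and the torus. -/
def proj {n n' k : ℕ} (σ : Fin n' → Fin n) (x : Fin n ⊕ Fin k → ℂ) : Fin n' ⊕ Fin k → ℂ :=
  Sum.elim (fun i => x (Sum.inl (σ i))) fun j => x (Sum.inr j)

/-- For the parameters with `δ ≠ 0` the projection of the family `X` to the modular coordinates `σ` and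
the torus is contained in a family of images which degenerates along sufficiently many
hypersurfaces. -/
def DegeneratesOn {K : Subfield ℂ} {q n n' k : ℕ} (δ : MvPolynomial (Fin q) K) (m : ℕ)
    (X : (Fin q → ℂ) → Set (Fin n ⊕ Fin k → ℂ)) (σ : Fin n' → Fin n) : Prop :=
  ∃ (κ : Type) (_ : Finite κ) (N M T : ℕ)
    (G : κ → MvPolynomial (Fin (N + 1)) (MvPolynomial (Fin q) K))
    (A B : Fin n' ⊕ Fin k → MvPolynomial (Fin (N + 1)) (MvPolynomial (Fin q) K))
    (d : Fin n' ⊕ Fin k → ℕ)
    (R : Fin n' → Polynomial (Polynomial K)) (c : Fin n' ⊕ Fin k → MvPolynomial (Fin q) K)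
    (h : Fin M → MvPolynomial (Fin q) K) (e : Fin M → Fin n' ⊕ Fin k → ℕ),
    (∀ a, ∃ e, (G a).IsHomogeneous e) ∧
    (∀ i, (A i).IsHomogeneous (d i) ∧ (B i).IsHomogeneous (d i)) ∧
    (∀ i, (R i).Monic) ∧ (∀ i u w, ((R i).coeff u).coeff w ≠ 0 → u ≤ T ∧ w ≤ T) ∧
    (∀ l, DegeneratesAlongK m G A B c (h l) (e l)) ∧ Independent T m e ∧
    ∀ t, evalAt K t δ ≠ 0 → ∀ x ∈ X t, proj σ x ∈ scaledImageX t G A B R c

/-- An atypical intersection is visible in at most `2 (m + 1)` modular coordinates and the torus. -/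
theorem noAtypical_of_proj {Λ : Type} [CommRing Λ] (f : Λ →+* ℂ) (K : Subfield ℂ) [Countable K]
    {n k m P : ℕ} (X : Set (Fin n ⊕ Fin k → ℂ)) (hX0 : ∀ x ∈ X, ∀ j, x (Sum.inr j) ≠ 0)
    (n' : Fin P → ℕ) (σ : ∀ s, Fin (n' s) → Fin n)
    (hσ : ∀ s, Function.Injective (σ s))
    (hcover : ∀ J : Finset (Fin n), J.card ≤ 2 * (m + 1) → ∃ s, ∀ i ∈ J, ∃ t, σ s t = i)
    (Y : ∀ s, Set (Fin (n' s) ⊕ Fin k → ℂ)) (hY : ∀ s, NoAtypical f K m (Y s))
    (hX : ∀ s, ∀ x ∈ X, proj (σ s) x ∈ Y s) : NoAtypical f K m X := by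
  classical
  intro r Z Mu η hη
  have hpt : ∀ x ∈ X, (fun i => x (Sum.inl i)) ∈ Z.locus → (fun j => x (Sum.inr j)) ∈ coset Mu η →
      ∀ S : Finset (Fin n ⊕ Fin k), AlgebraicIndependent K (fun i : S => x i) →
        S.card + n + Module.finrank ℤ Mu ≤ r + m := by
    rintro x hxX hxZ hxC S hS
    by_contra hcon
    push Not at hcon
    have hrn : r ≤ n := by
      choose g hg using Z.surj
      have h1 : Function.Injective g := by
        intro l l' hll
        have h2 := hg l
        rw [hll, hg l'] at h2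
        exact (Option.some_injective _ h2).symm
      simpa using Fintype.card_le_of_injective g h1
    set b := Module.finrank ℤ Mu with hb
    set c := min (n - r) (m + 1 - b) with hc
    let Z₀ : Pool.Agent.Y152.RP.Fam.SpecialVariety f n r :=
      ⟨Z.cls, Z.surj, Z.mat, Z.det_pos, Z.const, Z.allowed⟩
    obtain ⟨J, hJ, hproj⟩ := SpV_witness (c := c) Z₀ (by omega)
    obtain ⟨S', hS'S, hS'⟩ := Finset.exists_subset_card_eq (s := S) (n := m + 1 - b - c) (by omega)
    let S₁ : Finset (Fin n) := Finset.univ.filter fun i => Sum.inl i ∈ S'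
    have hS₁ : S₁.card ≤ S'.card := by
      rw [← Finset.card_image_of_injective S₁ (Sum.inl_injective (β := Fin k))]
      refine Finset.card_le_card ?_
      intro z hz
      obtain ⟨i, hi, rfl⟩ := Finset.mem_image.1 hz
      exact (Finset.mem_filter.1 hi).2
    obtain ⟨s, hs⟩ := hcover (J ∪ S₁) (by
      refine (Finset.card_union_le _ _).trans ?_
      omega)
    obtain ⟨r', Z', hr', hZ'⟩ := hproj (n' s) (σ s) (hσ s)
      fun i hi => hs i (Finset.mem_union_left _ hi)
    let Z'' : SpecialVariety f (n' s) r' :=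
      ⟨Z'.cls, Z'.surj, Z'.mat, Z'.det_pos, Z'.const, Z'.allowed⟩
    let ψ : Fin (n' s) ⊕ Fin k → Fin n ⊕ Fin k := Sum.map (σ s) id
    have hψ : Function.Injective ψ := Function.Injective.sumMap (hσ s) Function.injective_id
    let S'' : Finset (Fin (n' s) ⊕ Fin k) := Finset.univ.filter fun t => ψ t ∈ S'
    have hcard : S''.card = m + 1 - b - c := by
      rw [← hS', ← Finset.card_image_of_injective S'' hψ]
      congr 1
      ext z
      constructor
      · intro hz
        obtain ⟨t, ht, rfl⟩ := Finset.mem_image.1 hz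
        exact (Finset.mem_filter.1 ht).2
      · intro hz
        rcases z with i | j
        · obtain ⟨t, ht⟩ := hs i (Finset.mem_union_right _
            (Finset.mem_filter.2 ⟨Finset.mem_univ _, hz⟩))
          have h1 : ψ (Sum.inl t) = Sum.inl i := by
            change Sum.inl (σ s t) = Sum.inl i
            rw [ht]
          exact Finset.mem_image.2 ⟨Sum.inl t, Finset.mem_filter.2 ⟨Finset.mem_univ _, by
            rw [h1]
            exact hz⟩, h1⟩
        · exact Finset.mem_image.2 ⟨Sum.inr j, Finset.mem_filter.2 ⟨Finset.mem_univ _, hz⟩, rfl⟩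
    have hpx : proj (σ s) x = fun t => x (ψ t) := by
      funext t
      rcases t with t | j
      · rfl
      · rfl
    have hind : AlgebraicIndependent K (fun t : S'' => proj (σ s) x t) := by
      rw [hpx]
      have h1 := hS.comp (fun t : S'' => (⟨ψ t, hS'S (Finset.mem_filter.1 t.2).2⟩ : S)) (by
        intro t t' h
        exact Subtype.ext (hψ (congrArg Subtype.val h)))
      exact h1
    have h2 := (hY s r' Z'' Mu η hη).2 _ (hX s x hxX) (hZ' _ hxZ) hxC S'' hind
    omega
  refine ⟨?_, hpt⟩
  intro W' hW' hcl' hprime'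
  obtain ⟨w, hw⟩ := Pool.Agent.W282.ZP.nonempty_of_prime hprime'
  obtain ⟨x, hxW, hx0, T', hT', hdim⟩ := Pool.Agent.W282.SI.generic_dim' K W' hprime'
    (β := Fin k) (fun j => MvPolynomial.X (Sum.inr j)) (by
      intro j hj
      rw [Pool.Agent.W282.ZP.mem_idealOf] at hj
      have h2 := hj w hw
      rw [eval_X] at h2
      exact hX0 w (hW' hw).1 j h2)
  have hxA : x ∈ W' := hcl' x hxW fun j => by
    have h2 := hx0 j
    rwa [eval_X] at h2
  have h2 := hpt x (hW' hxA).1 (hW' hxA).2.1 (hW' hxA).2.2 T' hT'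
  calc Pool.Agent.W282.ZP.zdim W' + (n : Cardinal) + (Module.finrank ℤ Mu : Cardinal) ≤
        (T'.card : Cardinal) + (n : Cardinal) + (Module.finrank ℤ Mu : Cardinal) := by gcongr
    _ = ((T'.card + n + Module.finrank ℤ Mu : ℕ) : Cardinal) := by push_cast; rfl
    _ ≤ ((r + m : ℕ) : Cardinal) := by exact_mod_cast h2
    _ = (r : Cardinal) + (m : Cardinal) := by push_cast; rfl

/-- Families of sets in `Y(1)^n × G_m^k` whose projections to proper subsets of the modular coordinates
and the torus degenerate along sufficiently many hypersurfaces, where each set of at most `2 (m + 1)`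
modular coordinates is in one of these subsets: one hundred percent of the members over a number field,
with a power saving, have no atypical intersection. -/
theorem result (K : Subfield ℂ) [Countable K] (q n k m r P : ℕ) (_hk : 0 < k)
    (ω : Fin (r + 1) → K) (hω0 : ω 0 ≠ 0) (hω : ∀ b, IsAlgebraic ℚ (ω b : ℂ))
    (δ : MvPolynomial (Fin q) K) (hδ : δ ≠ 0) (X : (Fin q → ℂ) → Set (Fin n ⊕ Fin k → ℂ))
    (hX : ∀ t, ∀ x ∈ X t, ∀ j, x (Sum.inr j) ≠ 0)
    (n' : Fin P → ℕ) (_hn : ∀ s, n' s < n) (σ : ∀ s, Fin (n' s) → Fin n)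
    (hσ : ∀ s, Function.Injective (σ s))
    (hcover : ∀ J : Finset (Fin n), J.card ≤ 2 * (m + 1) → ∃ s, ∀ i ∈ J, ∃ t, σ s t = i)
    (hdeg : ∀ s, DegeneratesOn δ m X (σ s))
    (Γ : Finset ℂ) (hΓ : ∀ γ ∈ Γ, γ ∈ K) (ε : ℝ) (hε : 0 < ε) :
    ∃ C : ℝ, ∀ H : ℕ, 1 ≤ H →
      ({u : Fin q → Fin (r + 1) → ℤ | (∀ j b, |u j b| ≤ H) ∧
        ¬ NoAtypical (algebraMap (Algebra.adjoin ℤ (Γ : Set ℂ)) ℂ) K m
          (X (fun j => ∑ b, (ω b : ℂ) * (u j b : ℂ)))}.ncard : ℝ) ≤
        C * (H : ℝ) ^ ((q : ℝ) * (r + 1) - 1 + ε) := by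
  classical
  choose κ hκ N M T G A B d R c h e hG hAB hR hT hdl hind hsub using hdeg
  have hone := fun s => familyNFM K (κ s) q (N s) (n' s) k m (M s) (T s) r ω hω0 hω (G s) (hG s) (A s)
    (B s) (d s) (fun i => (hAB s i).1) (fun i => (hAB s i).2) (R s) (hR s) (hT s) (c s) (h s) (e s)
    (hdl s) Γ hΓ ε hε (hind s)
  choose C hC using hone
  obtain ⟨C₀, -, hC₀⟩ := zerosLin ω hω0 hδ hε
  refine ⟨C₀ + ∑ s, C s, fun H hH => ?_⟩
  have hbox : {u : Fin q → Fin (r + 1) → ℤ | ∀ j b, |u j b| ≤ (H : ℤ)}.Finite := by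
    refine Set.Finite.subset (Set.Finite.pi' (t := fun _ : Fin q =>
      {v : Fin (r + 1) → ℤ | ∀ b, |v b| ≤ (H : ℤ)}) fun _ => ?_) (fun u hu j => hu j)
    refine Set.Finite.subset (Set.Finite.pi' (t := fun _ : Fin (r + 1) =>
      {z : ℤ | |z| ≤ H}) fun _ => ?_) (fun u hu b => hu b)
    exact (Set.finite_Icc (-(H : ℤ)) H).subset fun z hz => abs_le.1 hz
  let S₀ : Set (Fin q → Fin (r + 1) → ℤ) :=
    {u | evalAt K (fun j => ∑ b, (ω b : ℂ) * (u j b : ℂ)) δ = 0} ∩ {u | ∀ j b, |u j b| ≤ (H : ℤ)}
  let S : Fin P → Set (Fin q → Fin (r + 1) → ℤ) := fun s =>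
    {u | ¬ NoAtypical (algebraMap (Algebra.adjoin ℤ (Γ : Set ℂ)) ℂ) K m
      (scaledImageX (fun j => ∑ b, (ω b : ℂ) * (u j b : ℂ)) (G s) (A s) (B s) (R s) (c s))} ∩
      {u | ∀ j b, |u j b| ≤ (H : ℤ)}
  have hcovS : {u : Fin q → Fin (r + 1) → ℤ | (∀ j b, |u j b| ≤ H) ∧
        ¬ NoAtypical (algebraMap (Algebra.adjoin ℤ (Γ : Set ℂ)) ℂ) K m
          (X (fun j => ∑ b, (ω b : ℂ) * (u j b : ℂ)))} ⊆ S₀ ∪ ⋃ s, S s := by
    rintro u ⟨hu, hbad⟩
    by_cases h0 : evalAt K (fun j => ∑ b, (ω b : ℂ) * (u j b : ℂ)) δ = 0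
    · exact Or.inl ⟨h0, hu⟩
    · right
      by_contra hcon
      apply hbad
      refine noAtypical_of_proj _ K _ (fun x hx => hX _ x hx) n' σ hσ hcover (fun s => scaledImageX
        (fun j => ∑ b, (ω b : ℂ) * (u j b : ℂ)) (G s) (A s) (B s) (R s) (c s)) (fun s => ?_)
        fun s x hx => hsub s _ h0 x hx
      by_contra hs
      exact hcon (Set.mem_iUnion.2 ⟨s, hs, hu⟩)
  have hfin : (S₀ ∪ ⋃ s, S s).Finite :=
    (hbox.subset Set.inter_subset_right).union
      (Set.finite_iUnion fun s => hbox.subset Set.inter_subset_right)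
  have h1 := Set.ncard_le_ncard hcovS hfin
  have h2 : (⋃ s, S s).ncard ≤ ∑ s, (S s).ncard := by
    have h3 : (⋃ s, S s) = ⋃ s ∈ (Finset.univ : Finset (Fin P)), S s := by simp
    rw [h3]
    exact Finset.set_ncard_biUnion_le _ _
  have h4 := (h1.trans (Set.ncard_union_le _ _)).trans (Nat.add_le_add_left h2 _)
  have h5 : ({u : Fin q → Fin (r + 1) → ℤ | (∀ j b, |u j b| ≤ H) ∧
        ¬ NoAtypical (algebraMap (Algebra.adjoin ℤ (Γ : Set ℂ)) ℂ) K m
          (X (fun j => ∑ b, (ω b : ℂ) * (u j b : ℂ)))}.ncard : ℝ) ≤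
        (S₀.ncard : ℝ) + ∑ s, ((S s).ncard : ℝ) := by exact_mod_cast h4
  refine h5.trans ?_
  rw [add_mul, Finset.sum_mul]
  exact add_le_add (hC₀ H hH) (Finset.sum_le_sum fun s _ => hC s H hH)

end Pool.Agent.Results.MP_eeb1a4_ag.MixedPartialDegeneration
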