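import Pool.Agent.X120.HG.Cnt

/-!
# Mixed variations `V_0 ⊕ V_1 ⊕ … ⊕ V_k`: a fixed mixed Hodge structure and hypergeometric variations of Calabi-Yau type, at
# the points `(b_1^(-t_1), …, b_k^(-t_k))`

Let `β_(i,1), …, β_(i,m_i)`, `1 ≤ i ≤ k`, be rational numbers which are not integers, `θ = z d/dz`, and let `V_i` be the variation of Hodge structure on the
projective line minus three points given by the hypergeometric operator `θ^(2m_i) - z ∏_j (θ + β_(i,j)) (θ + 1 - β_(i,j))`. It has maximally unipotent monodromy at `z = 0`. If the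
`β_(i,j)` are in `(0, 1)` it is irreducible of rank `2m_i`, of weight `2m_i - 1` with all Hodge numbers `h^{p,q} = 1`. For `m_i = 2` these are the variations of the
14 hypergeometric families of Calabi-Yau threefolds, for example of the mirror quintic. The rational structure is given, in the coordinates of the Frobenius basis, by an invertible matrix `C_i` (periods of the
limiting mixed Hodge structure); all invertible complex matrices are allowed here. Let `V_0` be any fixed mixed Hodge structure over `ℚ` and consider the variation `V = V_0 ⊕ pr_1^* V_1 ⊕ … ⊕ pr_k^* V_k` on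
`S = (ℙ¹ - {0, 1, ∞})^k`. This is an admissible graded-polarizable variation of mixed Hodge structure.

Let `Φ_0` be the multiplication by `p` on the part `I^{p,q}` of the Deligne splitting of `V_0`; this operator and the similar one for `q` generate the Lie
algebra of the image of the Deligne torus. The Lie algebra of the Mumford-Tate group of the fibre of `V` at `z` is a rational Lie algebra of block diagonal matrices whose complexification contains the operator
`(Φ_0, Φ_1, …, Φ_k)`, where `Φ_i` is the Hodge operator of `V_(i,z_i)`.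

**Theorem.** Let `b_i ≥ 2` be integers. There is a constant `K`, which depends only on the `β_(i,j)`, the `b_i` and on the dimension `n_0` of `V_0`, such that for all `V_0` and all `C_i`, for all but
`K N^(k-1) log N` of the `N^k` points `z = (b_1^(-t_1), …, b_k^(-t_k))`, `1 ≤ t_i ≤ N`, every rational Lie algebra whose complexification contains
`(Φ_0, Φ_1, …, Φ_k)` contains `0 × 𝔰𝔭(V_1) × … × 𝔰𝔭(V_k)`.

So the Mumford-Tate group of the fibre contains `1 × Sp(V_1) × … × Sp(V_k)`, the (connected) monodromy group, which means that it is the full inverse image of the Mumford-Tate group of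
`V_0 ⊕ ℚ(1)`, and the fibre is Hodge generic: the Hodge locus of `V` contains at most `K N^(k-1) log N` of these `N^k` points. By the conjecture the part of the Hodge locus of `V` of the atypical special
subvarieties is a finite union of subvarieties (for `m_i ≥ 2` all special subvarieties of `S` are atypical), so it contains `O(N^(k-1))` of the points. All previous results on these variations about the points
`1 / s` with `s` a natural number or about algebraic points of bounded height have exceptional sets which could contain all powers of `b`.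

Proof. (`Pool.Agent.X120.HG`, general, with no conditions on `V_0`.) 1. One structure and `V_0`: let `𝔪` be the Lie algebra, `ω` the period vector, `X = A ωᵀ ω` the highest weight vector of `𝔰𝔭(V_1)_ℂ`, of weight `w` for `Φ_1`. As `V_1` is generic, the complexification of `𝔪` contains `(Z, X)` with some `Z ∈ End(V_0)_ℂ`,
which can be chosen in the part `E` of weight `w` for `Φ_0`. So the values at `X` of the rational functionals which define `𝔪` are in the subspace of the values of the elements of `E`. By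
fraction-free elimination this subspace is defined by equations with coefficients in a finite-dimensional `ℚ`-space of polynomials in the entries of a basis and its inverse, of bounded degree, independent of `𝔪`. So we get quadratic
equations for `ω` with coefficients in this space. By the counting theorem for relations on geometric sequences (`Pool.Agent.X120.GS`) they hold for `g ω`, `g ∈ Sp`, so they hold for all elements of `𝔰𝔭(V_1)_ℂ` in place of `X`. For the
complex conjugate of `X`, which is not of weight `w`, this shows that `(0, X̄)` is in the complexification, so is `(0, X)`, and `0 × 𝔰𝔭(V_1) ⊆ 𝔪`. 2. Two structures: the same argument with relations of bidegree `(2, 2)`. 3. The general case follows as symplectic Lie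
algebras are perfect (Goursat, Kolchin, Ribet).
-/

set_option autoImplicit false

open PowerSeries

namespace Pool.Agent.Results.MP_eeb1a4_ag.RelativeHodgeGenericity

/-- the power series `x + ε` in the variable `ε` -/
noncomputable def shift (x : ℚ) : PowerSeries ℚ := C x + X

/-- `a_k(ε) = ∏_{l < k} ∏_j (l + ε + β_j) (l + ε + 1 - β_j) / (l + 1 + ε)^2`. The series `∑_k a_k(ε) z^(k + ε)` satisfies
`(θ^n - z ∏_j (θ + β_j) (θ + 1 - β_j)) f = ε^n z^ε`, `n = 2m`, hence its coefficients `f_j` at `ε^j` with `j < n` are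
solutions of the homogeneous equation. -/
noncomputable def frob {m : ℕ} (β : Fin m → ℚ) (k : ℕ) : PowerSeries ℚ :=
  ∏ l ∈ Finset.range k, ∏ j, (shift (l + β j) * shift (l + 1 - β j) * ((shift (l + 1))⁻¹) ^ 2)

/-- The row `((θ^i f_j)(1 / s))_j`, where `f_j(z)` is the coefficient of `ε^j` in the series `∑_k a_k(ε) z^(k + ε)`,
`z^ε = ∑_l (log z)^l ε^l / l!`. -/
noncomputable def per {m : ℕ} (β : Fin m → ℚ) (s i : ℕ) : Fin (2 * m) → ℂ := fun j =>
  ∑ l ∈ Finset.range ((j : ℕ) + 1), ((Real.log (1 / s) ^ l / l.factorial : ℝ) : ℂ) *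
    ∑' k : ℕ, ((coeff ((j : ℕ) - l) (shift k ^ i * frob β k) : ℚ) : ℂ) * (1 / (s : ℂ)) ^ k

/-- a rational matrix as a complex matrix -/
def toC {n : ℕ} (M : Matrix (Fin n) (Fin n) ℚ) : Matrix (Fin n) (Fin n) ℂ := M.map fun x : ℚ => (x : ℂ)

/-- `H p = H^{p, w-p}`, `p ≤ w`, are the parts of a Hodge structure of weight `w` on `ℚ^n` with the first bilinear relation for the nondegenerate
alternating form `A`, for example a Hodge structure which is polarised by `A`. (The sum is direct because of the relation.) -/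
structure IsHodge {n : ℕ} (w : ℕ) (A : Matrix (Fin n) (Fin n) ℚ) (H : ℕ → Submodule ℂ (Fin n → ℂ)) : Prop where
  alt : A.transpose = -A
  nondeg : A.det ≠ 0
  span : (⨆ p : {p : ℕ // p ≤ w}, H p) = ⊤
  conj : ∀ p ≤ w, ∀ v ∈ H p, (fun i => star (v i)) ∈ H (w - p)
  orth : ∀ p ≤ w, ∀ r ≤ w, p + r ≠ w → ∀ v ∈ H p, ∀ u ∈ H r, dotProduct v (Matrix.mulVec (toC A) u) = 0

/-- The Hodge operator `Φ` is the multiplication by `p` on `H^{p, w-p}`. Matrices act on row vectors from the right. -/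
def IsHodgeOperator {n : ℕ} (w : ℕ) (H : ℕ → Submodule ℂ (Fin n → ℂ)) (Φ : Matrix (Fin n) (Fin n) ℂ) : Prop :=
  ∀ p ≤ w, ∀ v ∈ H p, Matrix.vecMul v Φ = (p : ℂ) • v

/-- There is a basis of eigenvectors (the rows of `B`) of `Φ₀` with integer eigenvalues. The operators of multiplication by `p` on the
parts `I^{p,q}` of the Deligne splittings of mixed Hodge structures are of this kind. -/
def IsSplitOperator {n : ℕ} (Φ₀ : Matrix (Fin n) (Fin n) ℂ) : Prop :=
  ∃ (B : Matrix (Fin n) (Fin n) ℂ) (p : Fin n → ℤ), IsUnit B.det ∧ ∀ i, Matrix.vecMul (B i) Φ₀ = (p i : ℂ) • B i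

section
variable {n₀ k : ℕ} {n : Fin k → ℕ}

/-- the complexification of a rational space of block diagonal matrices `(X_0, X_1, …, X_k)` -/
def complexification (𝔪 : Submodule ℚ (Matrix (Fin n₀) (Fin n₀) ℚ × (∀ i, Matrix (Fin (n i)) (Fin (n i)) ℚ))) :
    Submodule ℂ (Matrix (Fin n₀) (Fin n₀) ℂ × (∀ i, Matrix (Fin (n i)) (Fin (n i)) ℂ)) :=
  Submodule.span ℂ ((fun X : Matrix (Fin n₀) (Fin n₀) ℚ × (∀ i, Matrix (Fin (n i)) (Fin (n i)) ℚ) => (toC X.1, fun i => toC (X.2 i))) '' 𝔪)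

/-- closed under brackets -/
def IsLie (𝔪 : Submodule ℚ (Matrix (Fin n₀) (Fin n₀) ℚ × (∀ i, Matrix (Fin (n i)) (Fin (n i)) ℚ))) : Prop :=
  ∀ X ∈ 𝔪, ∀ Y ∈ 𝔪, (X.1 * Y.1 - Y.1 * X.1, fun i => X.2 i * Y.2 i - Y.2 i * X.2 i) ∈ 𝔪

/-- Every rational Lie algebra `𝔪` of block diagonal matrices whose complexification contains `(Φ₀, Φ_1, …, Φ_k)`, `Φ_i` the Hodge
operator of `H_i` (for example the Lie algebra of the Mumford–Tate group), contains `0 × 𝔰𝔭(A_1) × … × 𝔰𝔭(A_k)`. -/
def RelativelyGeneric (Φ₀ : Matrix (Fin n₀) (Fin n₀) ℂ) (w : Fin k → ℕ) (A : ∀ i, Matrix (Fin (n i)) (Fin (n i)) ℚ)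
    (H : ∀ i, ℕ → Submodule ℂ (Fin (n i) → ℂ)) : Prop :=
  ∀ 𝔪 : Submodule ℚ (Matrix (Fin n₀) (Fin n₀) ℚ × (∀ i, Matrix (Fin (n i)) (Fin (n i)) ℚ)), IsLie 𝔪 →
    (∀ Φ : ∀ i, Matrix (Fin (n i)) (Fin (n i)) ℂ, (∀ i, IsHodgeOperator (w i) (H i) (Φ i)) → (Φ₀, Φ) ∈ complexification 𝔪) →
    ∀ X : ∀ i, Matrix (Fin (n i)) (Fin (n i)) ℚ, (∀ i, X i * A i + A i * (X i).transpose = 0) → (0, X) ∈ 𝔪

/-- passing to coordinates of complex numbers over `ℚ` -/
theorem coord_mem {𝔪 : Submodule ℚ (Matrix (Fin n₀) (Fin n₀) ℚ × (∀ i, Matrix (Fin (n i)) (Fin (n i)) ℚ))}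
    {Z : Matrix (Fin n₀) (Fin n₀) ℂ × (∀ i, Matrix (Fin (n i)) (Fin (n i)) ℂ)} (hZ : Z ∈ complexification 𝔪)
    (φ : ℂ →ₗ[ℚ] ℚ) : ((Pool.Agent.X120.HG.ph φ Z.1, fun i => Pool.Agent.X120.HG.ph φ (Z.2 i)) :
      Matrix (Fin n₀) (Fin n₀) ℚ × (∀ i, Matrix (Fin (n i)) (Fin (n i)) ℚ)) ∈ 𝔪 := by
  unfold complexification at hZ
  induction hZ using Submodule.span_induction generalizing φ with
  | mem x hx =>
    obtain ⟨Y, hY, rfl⟩ := hx
    have h1 : ((Pool.Agent.X120.HG.ph φ (toC Y.1), fun i => Pool.Agent.X120.HG.ph φ (toC (Y.2 i))) :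
        Matrix (Fin n₀) (Fin n₀) ℚ × (∀ i, Matrix (Fin (n i)) (Fin (n i)) ℚ)) = φ 1 • Y := by
      refine Prod.ext (Pool.Agent.X120.HG.ph_cq φ _) ?_
      funext i
      exact Pool.Agent.X120.HG.ph_cq φ _
    exact h1 ▸ 𝔪.smul_mem _ hY
  | zero =>
    have h1 : ((Pool.Agent.X120.HG.ph φ (0 : Matrix (Fin n₀) (Fin n₀) ℂ), fun i => Pool.Agent.X120.HG.ph φ (0 : Matrix (Fin (n i)) (Fin (n i)) ℂ)) :
        Matrix (Fin n₀) (Fin n₀) ℚ × (∀ i, Matrix (Fin (n i)) (Fin (n i)) ℚ)) = 0 := by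
      refine Prod.ext (Pool.Agent.X120.HG.ph_zero φ) ?_
      funext i
      exact Pool.Agent.X120.HG.ph_zero φ
    exact h1 ▸ 𝔪.zero_mem
  | add x y _ _ hx hy =>
    have h1 : ((Pool.Agent.X120.HG.ph φ (x.1 + y.1), fun i => Pool.Agent.X120.HG.ph φ (x.2 i + y.2 i)) :
        Matrix (Fin n₀) (Fin n₀) ℚ × (∀ i, Matrix (Fin (n i)) (Fin (n i)) ℚ)) =
        (Pool.Agent.X120.HG.ph φ x.1, fun i => Pool.Agent.X120.HG.ph φ (x.2 i)) +
        (Pool.Agent.X120.HG.ph φ y.1, fun i => Pool.Agent.X120.HG.ph φ (y.2 i)) := by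
      refine Prod.ext (Pool.Agent.X120.HG.ph_add φ _ _) ?_
      funext i
      exact Pool.Agent.X120.HG.ph_add φ _ _
    have h2 := 𝔪.add_mem (hx φ) (hy φ)
    rw [← h1] at h2
    exact h2
  | smul a x _ hx => exact hx (Pool.Agent.X120.HG.phs φ a)

theorem split_eq {Φ₀ : Matrix (Fin n₀) (Fin n₀) ℂ} (h : IsSplitOperator Φ₀) :
    ∃ (B : Matrix (Fin n₀) (Fin n₀) ℂ) (p : Fin n₀ → ℤ), IsUnit B.det ∧ Φ₀ = Pool.Agent.X120.HG.opB B p := by
  obtain ⟨B, p, hB, h1⟩ := h
  refine ⟨B, p, hB, ?_⟩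
  have h2 : B * Φ₀ = Matrix.diagonal (fun i => (p i : ℂ)) * B := by
    ext i j
    rw [Matrix.diagonal_mul]
    exact congrFun (h1 i) j
  have h3 : B⁻¹ * (B * Φ₀) = B⁻¹ * (Matrix.diagonal (fun i => (p i : ℂ)) * B) := by rw [h2]
  rw [← Matrix.mul_assoc, Matrix.nonsing_inv_mul _ hB, Matrix.one_mul, ← Matrix.mul_assoc] at h3
  exact h3

end

/-- The fibre at `z = (1 / s_1, …, 1 / s_k)` is Hodge generic relative to `V_0`: for all Hodge structures `H_i` of weight `2 m_i - 1` with a form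
`A_i` such that `H_i^{2 m_i - 1, 0}` is spanned by the period vector of the `i`-th family at `1 / s_i`, in the coordinates given by `C_i`. -/
def GenericFibre {n₀ k : ℕ} {m : Fin k → ℕ} (Φ₀ : Matrix (Fin n₀) (Fin n₀) ℂ) (β : ∀ i, Fin (m i) → ℚ) (s : Fin k → ℕ)
    (C : ∀ i, Matrix (Fin (2 * m i)) (Fin (2 * m i)) ℂ) : Prop :=
  ∀ (A : ∀ i, Matrix (Fin (2 * m i)) (Fin (2 * m i)) ℚ) (H : ∀ i, ℕ → Submodule ℂ (Fin (2 * m i) → ℂ)),
    (∀ i, IsHodge (2 * m i - 1) (A i) (H i)) →
    (∀ i, H i (2 * m i - 1) = Submodule.span ℂ {Matrix.vecMul (per (β i) (s i) 0) (C i)}) →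
    RelativelyGeneric Φ₀ (fun i => 2 * m i - 1) A H

/-- **The theorem.** -/
theorem result (n₀ k : ℕ) (m : Fin k → ℕ) (hm : ∀ i, 1 ≤ m i) (β : ∀ i, Fin (m i) → ℚ)
    (hβ : ∀ i j, ∀ a : ℤ, β i j ≠ a) (b : Fin k → ℕ) (hb : ∀ i, 2 ≤ b i) :
    ∃ K : ℝ, 0 ≤ K ∧ ∀ Φ₀ : Matrix (Fin n₀) (Fin n₀) ℂ, IsSplitOperator Φ₀ →
      ∀ C : ∀ i, Matrix (Fin (2 * m i)) (Fin (2 * m i)) ℂ, (∀ i, (C i).det ≠ 0) → ∀ N : ℕ, 2 ≤ N →
      (({t : Fin k → ℕ | (∀ i, 1 ≤ t i ∧ t i ≤ N) ∧ ¬ GenericFibre Φ₀ β (fun i => b i ^ t i) C}.ncard : ℕ) : ℝ) * N ≤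
        K * (N : ℝ) ^ k * Real.log N := by
  classical
  obtain ⟨K, hK, hcount⟩ := Pool.Agent.X120.HG.hyp_gen n₀ k m hm β hβ b hb
  refine ⟨K, hK, ?_⟩
  intro Φ₀ hΦ₀ C hC N hN
  obtain ⟨B₀, p₀, hB₀, rfl⟩ := split_eq hΦ₀
  set S := {t : Fin k → ℕ | (∀ i, 1 ≤ t i ∧ t i ≤ N) ∧
    ¬ GenericFibre (Pool.Agent.X120.HG.opB B₀ p₀) β (fun i => b i ^ t i) C} with hS
  have hfin : S.Finite := by
    refine (Set.finite_Iic (fun _ : Fin k => N)).subset ?_
    intro t ht i
    exact (ht.1 i).2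
  rw [Set.ncard_eq_toFinset_card S hfin]
  refine hcount B₀ hB₀ p₀ C hC N hN hfin.toFinset fun t ht => ?_
  have ht' : t ∈ S := hfin.mem_toFinset.1 ht
  refine ⟨ht'.1, fun hgood => ht'.2 ?_⟩
  intro A H hH hHω 𝔪 hbr hΦ X hX
  exact hgood A H (fun i => ⟨(hH i).alt, (hH i).nondeg, (hH i).span, (hH i).conj, (hH i).orth⟩) hHω 𝔪 hbr
    (fun Φ hop φ => coord_mem (hΦ Φ hop) φ) X hX

end Pool.Agent.Results.MP_eeb1a4_ag.RelativeHodgeGenericity
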